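import Pool.Agent.Helper50.BC.Goals

set_option autoImplicit false

open scoped ContDiff
open Real

namespace Pool.Agent.Helper8.BC

open Pool.Agent.Helper50.BC

/-- the pairing as a continuous linear map -/
noncomputable def prL {q : ℕ} (e : Fin q → Bool) : E q →L[ℝ] ℝ :=
  ∑ i, sg (e i) • (EuclideanSpace.proj i : E q →L[ℝ] ℝ)

lemma prL_apply {q : ℕ} (e : Fin q → Bool) (x : E q) : prL e x = pr e x := by
  unfold prL pr
  rw [sum_apply]
  apply Finset.sum_congr rfl
  intro i _
  simp

lemma pr_add {q : ℕ} (e : Fin q → Bool) (x y : E q) : pr e (x + y) = pr e x + pr e y := by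
  rw [← prL_apply, ← prL_apply, ← prL_apply, map_add]

lemma pr_smul {q : ℕ} (e : Fin q → Bool) (c : ℝ) (x : E q) : pr e (c • x) = c * pr e x := by
  rw [← prL_apply, ← prL_apply, map_smul, smul_eq_mul]

lemma hasFDerivAt_pr {q : ℕ} (e : Fin q → Bool) (φ : ℝ) (x : E q) :
    HasFDerivAt (fun x => pr e x + φ) (prL e) x := by
  have h : (fun x => pr e x + φ) = fun x => prL e x + φ := by
    funext x
    rw [prL_apply]
  rw [h]
  exact (prL e).hasFDerivAt.add_const φ

lemma contDiff_pr {q : ℕ} (e : Fin q → Bool) (φ : ℝ) :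
    ContDiff ℝ ∞ (fun x : E q => pr e x + φ) := by
  have h : (fun x : E q => pr e x + φ) = fun x => prL e x + φ := by
    funext x
    rw [prL_apply]
  rw [h]
  exact (prL e).contDiff.add contDiff_const

lemma RR_apply {q N : ℕ} (A : Fin N → ((Fin q → Bool) × Bool) → Bool)
    (w : (Fin q → Bool) → ℝ) (φ : ℝ) (x : E q) (a : Fin N) :
    RR A w φ x a = (√((N : ℝ) * 2 ^ q))⁻¹ * ∑ s, sg (A a s) * cf w φ x s := rfl

/-- the derivative of the trigonometric map -/
noncomputable def D {q N : ℕ} (A : Fin N → ((Fin q → Bool) × Bool) → Bool)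
    (w : (Fin q → Bool) → ℝ) (φ : ℝ) (x : E q) : E q →L[ℝ] E N :=
  LinearMap.toContinuousLinearMap
    { toFun := fun v => RR A (fun e => pr e v * w e) (φ + π / 2) x
      map_add' := by
        intro u v
        ext a
        rw [PiLp.add_apply, RR_apply, RR_apply, RR_apply, ← mul_add, ← Finset.sum_add_distrib]
        congr 1
        apply Finset.sum_congr rfl
        intro s _
        simp only [cf, pr_add]
        ring
      map_smul' := by
        intro c v
        ext a
        rw [PiLp.smul_apply, RR_apply, RR_apply, smul_eq_mul, RingHom.id_apply]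
        rw [mul_left_comm]
        congr 1
        rw [Finset.mul_sum]
        apply Finset.sum_congr rfl
        intro s _
        simp only [cf, pr_smul]
        ring }

lemma D_apply {q N : ℕ} (A : Fin N → ((Fin q → Bool) × Bool) → Bool)
    (w : (Fin q → Bool) → ℝ) (φ : ℝ) (x v : E q) :
    D A w φ x v = RR A (fun e => pr e v * w e) (φ + π / 2) x := rfl

lemma hasFDerivAt_cf {q : ℕ} (w : (Fin q → Bool) → ℝ) (φ : ℝ) (x : E q)
    (s : (Fin q → Bool) × Bool) :
    HasFDerivAt (fun x => cf w φ x s)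
      ((w s.1 * (if s.2 then Real.cos (pr s.1 x + φ) else -Real.sin (pr s.1 x + φ))) • prL s.1)
      x := by
  obtain ⟨e, b⟩ := s
  cases b
  · have h := ((hasFDerivAt_pr e φ x).cos).const_mul (w e)
    simp only [cf, if_false, Bool.false_eq_true]
    rw [mul_smul]
    exact h
  · have h := ((hasFDerivAt_pr e φ x).sin).const_mul (w e)
    simp only [cf, if_true]
    rw [mul_smul]
    exact h

lemma hasFDerivAt_RR {q N : ℕ} (A : Fin N → ((Fin q → Bool) × Bool) → Bool)
    (w : (Fin q → Bool) → ℝ) (φ : ℝ) (x : E q) :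
    HasFDerivAt (RR A w φ) (D A w φ x) x := by
  rw [← hasFDerivWithinAt_univ, hasFDerivWithinAt_euclidean]
  intro a
  have h : HasFDerivAt (fun x => (√((N : ℝ) * 2 ^ q))⁻¹ * ∑ s, sg (A a s) * cf w φ x s)
      ((√((N : ℝ) * 2 ^ q))⁻¹ • ∑ s : (Fin q → Bool) × Bool, sg (A a s) •
        ((w s.1 * (if s.2 then Real.cos (pr s.1 x + φ) else -Real.sin (pr s.1 x + φ))) •
          prL s.1)) x := by
    apply HasFDerivAt.const_mul
    apply HasFDerivAt.fun_sum
    intro s _
    exact (hasFDerivAt_cf w φ x s).const_mul _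
  have hD : (PiLp.proj 2 (fun _ : Fin N => ℝ) a : E N →L[ℝ] ℝ) ∘L (D A w φ x) =
      (√((N : ℝ) * 2 ^ q))⁻¹ • ∑ s : (Fin q → Bool) × Bool, sg (A a s) •
        ((w s.1 * (if s.2 then Real.cos (pr s.1 x + φ) else -Real.sin (pr s.1 x + φ))) •
          prL s.1) := by
    apply ContinuousLinearMap.ext
    intro v
    rw [ContinuousLinearMap.comp_apply, PiLp.proj_apply, D_apply, RR_apply,
      smul_apply, sum_apply, smul_eq_mul]
    congr 1
    apply Finset.sum_congr rfl
    rintro ⟨e, b⟩ _
    rw [smul_apply, smul_apply, smul_eq_mul, smul_eq_mul,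
      prL_apply]
    cases b
    · simp only [cf, if_false, Bool.false_eq_true]
      rw [← add_assoc, Real.cos_add_pi_div_two]
      ring
    · simp only [cf, if_true]
      rw [← add_assoc, Real.sin_add_pi_div_two]
      ring
  rw [hD, hasFDerivWithinAt_univ]
  exact h

lemma fderiv_RR {q N : ℕ} (A : Fin N → ((Fin q → Bool) × Bool) → Bool)
    (w : (Fin q → Bool) → ℝ) (φ : ℝ) (x v : E q) :
    fderiv ℝ (RR A w φ) x v = RR A (fun e => pr e v * w e) (φ + π / 2) x := by
  rw [(hasFDerivAt_RR A w φ x).fderiv]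
  rfl

lemma contDiff_RR {q N : ℕ} (A : Fin N → ((Fin q → Bool) × Bool) → Bool)
    (w : (Fin q → Bool) → ℝ) (φ : ℝ) : ContDiff ℝ ∞ (RR A w φ) := by
  rw [contDiff_euclidean]
  intro a
  have h : (fun x => RR A w φ x a) =
      fun x => (√((N : ℝ) * 2 ^ q))⁻¹ * ∑ s, sg (A a s) * cf w φ x s := rfl
  rw [h]
  apply contDiff_const.mul
  apply ContDiff.sum
  rintro ⟨e, b⟩ _
  apply contDiff_const.mul
  cases b
  · simp only [cf, if_false, Bool.false_eq_true]
    exact contDiff_const.mul (Real.contDiff_cos.comp (contDiff_pr e φ))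
  · simp only [cf, if_true]
    exact contDiff_const.mul (Real.contDiff_sin.comp (contDiff_pr e φ))

theorem goalDER : G_DER := by
  intro q N A
  have hC : ContDiff ℝ ∞ (RR A (fun _ => 1) 0) := contDiff_RR A _ 0
  have hC1 : ContDiff ℝ ∞ (fderiv ℝ (RR A (fun _ => 1) 0)) :=
    hC.fderiv_right (m := ∞) (by simp)
  have hC2 : ContDiff ℝ ∞ (fderiv ℝ (fderiv ℝ (RR A (fun _ => 1) 0))) :=
    hC1.fderiv_right (m := ∞) (by simp)
  have h1 : ∀ x v, fderiv ℝ (RR A (fun _ => 1) 0) x v = RR A (fun e => pr e v) (π / 2) x := by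
    intro x v
    rw [fderiv_RR]
    simp only [mul_one, zero_add]
  have h2 : ∀ x u v, fderiv ℝ (fderiv ℝ (RR A (fun _ => 1) 0)) x u v =
      RR A (fun e => pr e u * pr e v) π x := by
    intro x u v
    have hd : HasFDerivAt (fderiv ℝ (RR A (fun _ => 1) 0))
        (fderiv ℝ (fderiv ℝ (RR A (fun _ => 1) 0)) x) x :=
      ((hC1.differentiable (by simp)) x).hasFDerivAt
    have he := hd.clm_apply (hasFDerivAt_const v x)
    have hf : (fun y => fderiv ℝ (RR A (fun _ => 1) 0) y v) = RR A (fun e => pr e v) (π / 2) := by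
      funext y
      exact h1 y v
    rw [hf] at he
    have hg := congrArg (fun L => L u) (he.unique (hasFDerivAt_RR A (fun e => pr e v) (π / 2) x))
    simp only [D_apply] at hg
    simp at hg
    rw [hg]
  refine ⟨hC, h1, h2, ?_⟩
  intro x u v w
  have hd : HasFDerivAt (fderiv ℝ (fderiv ℝ (RR A (fun _ => 1) 0)))
      (fderiv ℝ (fderiv ℝ (fderiv ℝ (RR A (fun _ => 1) 0))) x) x :=
    ((hC2.differentiable (by simp)) x).hasFDerivAt
  have he := (hd.clm_apply (hasFDerivAt_const v x)).clm_apply (hasFDerivAt_const w x)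
  have hf : (fun y => fderiv ℝ (fderiv ℝ (RR A (fun _ => 1) 0)) y v w) =
      RR A (fun e => pr e v * pr e w) π := by
    funext y
    exact h2 y v w
  rw [hf] at he
  have hg := congrArg (fun L => L u)
    (he.unique (hasFDerivAt_RR A (fun e => pr e v * pr e w) π x))
  simp only [D_apply] at hg
  simp at hg
  rw [hg]
  have e1 : (fun e : Fin q → Bool => pr e u * (pr e v * pr e w)) =
      fun e => pr e u * pr e v * pr e w := by
    funext e
    ring
  rw [e1]
  congr 1
  ring

end Pool.Agent.Helper8.BC
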